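import Pool.Agent.helper55.VQ.SpecD

/-!
# Row vqd:EDZ (MP_07c750_an)
-/

set_option autoImplicit false

open scoped MatrixGroups ContDiff Topology UpperHalfPlane ComplexConjugate ENNReal
open UpperHalfPlane MeasureTheory Filter Set

namespace Pool.Agent.VQ

open Pool.Agent.RS
open Pool.Agent.RPQ (CEig mean VV IsOp)

noncomputable section

theorem EDZ_norm {Y : Type} [MeasurableSpace Y] (μ : Measure Y) (f : Lp ℂ 2 μ) :
    ‖f‖ ^ 2 = ∫ a, ‖f a‖ ^ 2 ∂μ := by
  have h1 := L2.inner_def (𝕜 := ℂ) f f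
  rw [inner_self_eq_norm_sq_to_K] at h1
  have h2 : ∀ a, inner ℂ (f a) (f a) = ((‖f a‖ ^ 2 : ℝ) : ℂ) := by
    intro a
    rw [inner_self_eq_norm_sq_to_K]
    push_cast
    rfl
  simp only [h2] at h1
  rw [integral_complex_ofReal] at h1
  have h3 : ((‖f‖ ^ 2 : ℝ) : ℂ) = ((∫ a, ‖f a‖ ^ 2 ∂μ : ℝ) : ℂ) := by
    rw [← h1]
    push_cast
    rfl
  exact_mod_cast h3

theorem EDZ_mW (hGMG : RS.GMG_stmt) (R : ℝ) : mW R = mP.restrict (GW 2 R) := by
  haveI : SigmaFinite mG := hGMG.2.2.1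
  unfold mW mP GW
  rw [← Measure.prod_restrict, Measure.restrict_univ]

theorem EDZ_proof (hKPZ : KPZ_stmt) (hPSC : PSC_stmt) (hGMG : RS.GMG_stmt) : EDZ_stmt := by
  intro Γ F R hΓ hF hR
  haveI : SigmaFinite mG := hGMG.2.2.1
  have hR0 : 0 ≤ R ^ (-(1 / 4) : ℝ) := Real.rpow_nonneg (by linarith) _
  have e1 : (mW R).restrict (DW F) = mP.restrict (PW F 2 R) := by
    unfold mW DW mP PW
    rw [← Measure.prod_restrict, Measure.restrict_univ, ← Measure.prod_restrict]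
  have e2 : (mW R).restrict (PW F 1 R) = mP.restrict (PW F 1 R) := by
    have h1 : Wi 1 R ⊆ Wi 2 R := by
      intro x hx
      unfold Wi at hx ⊢
      exact ⟨by linarith [hx.1], by linarith [hx.2]⟩
    unfold mW mP PW
    rw [← Measure.prod_restrict, Measure.restrict_restrict_of_subset h1, ← Measure.prod_restrict]
  refine ⟨e1, e2, ?_⟩
  intro K v hK hsupp hv
  have e3 : ∀ p, ∫ q in DW F, perZ Γ K p q * v q ∂mW R = Op K v p := by
    intro p
    have h1 := (((hKPZ Γ (SL(2, ℝ) × ℝ) (mW R) (DW F) dW (hPSC Γ F R hΓ hF)).1 K hK).2.2.2) v hv.meas hv.bdd hv.inv p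
    rw [h1, EDZ_mW hGMG R]
    unfold Op
    refine setIntegral_eq_integral_of_forall_compl_eq_zero ?_
    intro q hq
    have h2 : K p q = 0 := by
      by_contra h
      exact hq (hsupp p q h)
    rw [h2, zero_mul]
  refine ⟨e3, ?_⟩
  intro T Φ hT hΦ
  rw [EDZ_norm]
  unfold nP
  rw [← e1]
  refine integral_congr_ae ?_
  have h1 := hT Φ
  have h2 := Lp.coeFn_sub (T Φ) Φ
  filter_upwards [h1, h2, hΦ] with p q1 q2 q3
  rw [q2, Pi.sub_apply, q1, q3]
  have h3 : ∫ z, perZ Γ K p z * Φ z ∂(mW R).restrict (DW F) = ∫ z in DW F, perZ Γ K p z * v z ∂mW R := by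
    refine integral_congr_ae ?_
    filter_upwards [hΦ] with z hz
    rw [hz]
  rw [h3, e3 p]

end

end Pool.Agent.VQ
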