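import Pool.Agent.helper11.VQ.Spec3c

/-!
# Row vq:VHP (MP_07c750_an)
-/

set_option autoImplicit false

open scoped MatrixGroups ContDiff Topology UpperHalfPlane ComplexConjugate ENNReal
open UpperHalfPlane MeasureTheory Filter Set

namespace Pool.Agent.VQ

open Pool.Agent.RS
open Pool.Agent.RPQ (CEig mean VV IsOp IsMul OProj wrd PJ nst mks MO Net Cl CkB PN upd Eqd)

noncomputable section

theorem VHP_okd {Γ : Subgroup SL(2, ℝ)} {δ δ' : ℝ} {B : ℕ → ℝ} {D : Dyn} (h : OKD Γ δ B D) (hd : δ ≤ δ') :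
    OKD Γ δ' B D :=
  { h with pot := { h.pot with near := fun g v hv n hn => (h.pot.near g v hv n hn).trans hd } }

theorem VHP_adm {C C' : ℝ} {A : Prm} (h : Adm C' A) (hc : C ≤ C') (hz : 0 ≤ A.z) (hz1 : 0 ≤ A.z1)
    (hz2 : 0 ≤ A.z2) : Adm C A where
  e3 := h.e3
  m := h.m
  z := (mul_le_mul_of_nonneg_right hc h.e3.le).trans h.z
  z1 := (mul_le_mul_of_nonneg_right hc hz).trans h.z1
  z2 := (mul_le_mul_of_nonneg_right hc hz1).trans h.z2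
  up := (mul_le_mul_of_nonneg_right hc (by positivity)).trans h.up
  tu := h.tu

/-- the parameters -/
theorem VHP_prm (C e2 z0 : ℝ) (N : ℕ) (hC : 1 ≤ C) (he : 0 < e2) (he1 : e2 ≤ 1 / 20) (he2 : C ^ 4 * e2 ≤ 1)
    (hz0 : 0 < z0) : ∃ A : Prm, Adm C A ∧ A.m * A.e3 = e2 ∧ A.z2 ≤ z0 ∧ 0 ≤ A.z ∧ 0 ≤ A.z1 ∧ 0 ≤ A.z2 ∧
      A.z2 ≤ 1 / 8 ∧ N * (C * A.z2) ≤ 1 / 4 := by
  obtain ⟨m, hm⟩ := exists_nat_ge (max (C ^ 3 * e2 / z0) (max (8 * (C ^ 3 * e2)) (max (4 * (N * (C ^ 4 * e2))) 1)))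
  have m1 : C ^ 3 * e2 / z0 ≤ m := (le_max_left _ _).trans hm
  have m2 : 8 * (C ^ 3 * e2) ≤ m := ((le_max_left _ _).trans (le_max_right _ _)).trans hm
  have m3 : 4 * (N * (C ^ 4 * e2)) ≤ m :=
    (((le_max_left _ _).trans (le_max_right _ _)).trans (le_max_right _ _)).trans hm
  have m4 : (1 : ℝ) ≤ m :=
    (((le_max_right _ _).trans (le_max_right _ _)).trans (le_max_right _ _)).trans hm
  have m0 : (0 : ℝ) < m := by linarith
  have hC0 : (0 : ℝ) < C := by linarith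
  have e0 : (m : ℝ) * (e2 / m) = e2 := by field_simp
  have hz : C * (C * (C * (e2 / m))) = C ^ 3 * e2 / m := by ring
  refine ⟨⟨e2 / m, m, C * (e2 / m), C * (C * (e2 / m)), C * (C * (C * (e2 / m)))⟩,
    ⟨?_, ?_, le_rfl, le_rfl, le_rfl, ?_, ?_⟩, ?_, ?_, ?_, ?_, ?_, ?_, ?_⟩
  · positivity
  · exact_mod_cast m4
  · show C * (m * (C * (C * (C * (e2 / m))))) ≤ 1
    have : C * (m * (C * (C * (C * (e2 / m))))) = C ^ 4 * (m * (e2 / m)) := by ring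
    rw [this, e0]
    exact he2
  · show (m : ℝ) * (e2 / m) ≤ 1 / 20
    rw [e0]
    exact he1
  · exact e0
  · show C * (C * (C * (e2 / m))) ≤ z0
    rw [hz, div_le_iff₀ m0]
    rw [div_le_iff₀ hz0] at m1
    linarith
  · show 0 ≤ C * (e2 / m)
    positivity
  · show 0 ≤ C * (C * (e2 / m))
    positivity
  · show 0 ≤ C * (C * (C * (e2 / m)))
    positivity
  · show C * (C * (C * (e2 / m))) ≤ 1 / 8
    rw [hz, div_le_iff₀ m0]
    linarith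
  · show N * (C * (C * (C * (C * (e2 / m))))) ≤ 1 / 4
    have : N * (C * (C * (C * (C * (e2 / m))))) = N * (C ^ 4 * e2) / m := by ring
    rw [this, div_le_iff₀ m0]
    linarith

theorem VHP_nst (b L n : ℕ) (hb : 1 ≤ b) (l : List ℕ) (hl : l ∈ AdZ b L n) : nst l ≤ b * n * L := by
  obtain ⟨c, hc1, hc2, rfl⟩ := hl
  unfold nst
  rw [List.map_map]
  have h1 : ∀ x ∈ List.map ((fun x => x + 1) ∘ fun x => b * x + (b - 1)) c, x ≤ b * n := by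
    intro x hx
    obtain ⟨y, hy, rfl⟩ := List.mem_map.1 hx
    have h2 := hc2 y hy
    show b * y + (b - 1) + 1 ≤ b * n
    have h3 : b * (y + 1) ≤ b * n := Nat.mul_le_mul_left b h2
    rw [mul_add, mul_one] at h3
    omega
  have h2 := List.sum_le_card_nsmul _ _ h1
  rw [List.length_map, hc1, smul_eq_mul] at h2
  rw [mul_comm (b * n) L]
  exact h2

/-- the elementary inequalities for large `R` -/
theorem VHP_num (N m : ℕ) (hN : 1 ≤ N) : ∃ R0 : ℝ, 3 ≤ R0 ∧ ∀ R : ℝ, R0 ≤ R →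
    1 ≤ R ∧ 2 ≤ Real.log R ∧ 2 * R ^ (-(1 / 4) : ℝ) ≤ R ^ (-(1 / 5) : ℝ) ∧
    ∀ z2 : ℝ, z2 ≤ 1 / 8 → ((m : ℝ) + 1) * R ^ (-(1 / 2) + z2) ≤ R ^ (-(1 / 4) : ℝ) / (4 * N) := by
  refine ⟨max 3 (max (Real.exp 2) (max ((2 : ℝ) ^ 20) ((4 * N * ((m : ℝ) + 1)) ^ 8))), le_max_left _ _, ?_⟩
  intro R hR
  have r1 : 3 ≤ R := (le_max_left _ _).trans hR
  have r2 : Real.exp 2 ≤ R := ((le_max_left _ _).trans (le_max_right _ _)).trans hR
  have r3 : (2 : ℝ) ^ 20 ≤ R :=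
    (((le_max_left _ _).trans (le_max_right _ _)).trans (le_max_right _ _)).trans hR
  have r4 : (4 * N * ((m : ℝ) + 1)) ^ 8 ≤ R :=
    (((le_max_right _ _).trans (le_max_right _ _)).trans (le_max_right _ _)).trans hR
  have hR0 : 0 < R := by linarith
  have hN0 : (0 : ℝ) < N := by exact_mod_cast hN
  refine ⟨by linarith, ?_, ?_, ?_⟩
  · rw [Real.le_log_iff_exp_le hR0]
    exact r2
  · have h1 : (2 : ℝ) ≤ R ^ (1 / 20 : ℝ) := by
      have h2 : ((2 : ℝ) ^ (20 : ℕ)) ^ (1 / 20 : ℝ) = 2 := by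
        rw [← Real.rpow_natCast, ← Real.rpow_mul (by norm_num)]
        norm_num
      calc (2 : ℝ) = ((2 : ℝ) ^ (20 : ℕ)) ^ (1 / 20 : ℝ) := h2.symm
        _ ≤ R ^ (1 / 20 : ℝ) := Real.rpow_le_rpow (by positivity) r3 (by norm_num)
    have h3 : R ^ (-(1 / 5) : ℝ) = R ^ (1 / 20 : ℝ) * R ^ (-(1 / 4) : ℝ) := by
      rw [← Real.rpow_add hR0]
      norm_num
    rw [h3]
    exact mul_le_mul_of_nonneg_right h1 (Real.rpow_nonneg hR0.le _)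
  · intro z2 hz2
    have h0 : (0 : ℝ) ≤ 4 * N * ((m : ℝ) + 1) := by positivity
    have h1 : 4 * N * ((m : ℝ) + 1) ≤ R ^ (1 / 8 : ℝ) := by
      have h2 : ((4 * N * ((m : ℝ) + 1)) ^ (8 : ℕ)) ^ (1 / 8 : ℝ) = 4 * N * ((m : ℝ) + 1) := by
        rw [← Real.rpow_natCast, ← Real.rpow_mul h0]
        norm_num
      calc 4 * N * ((m : ℝ) + 1) = ((4 * N * ((m : ℝ) + 1)) ^ (8 : ℕ)) ^ (1 / 8 : ℝ) := h2.symm
        _ ≤ R ^ (1 / 8 : ℝ) := Real.rpow_le_rpow (by positivity) r4 (by norm_num)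
    rw [le_div_iff₀ (by positivity)]
    calc ((m : ℝ) + 1) * R ^ (-(1 / 2) + z2) * (4 * N) = (4 * N * ((m : ℝ) + 1)) * R ^ (-(1 / 2) + z2) := by ring
      _ ≤ R ^ (1 / 8 : ℝ) * R ^ (-(3 / 8) : ℝ) := by
          refine mul_le_mul h1 ?_ (Real.rpow_nonneg hR0.le _) (Real.rpow_nonneg hR0.le _)
          exact Real.rpow_le_rpow_of_exponent_le (by linarith) (by linarith)
      _ = R ^ (-(1 / 4) : ℝ) := by
          rw [← Real.rpow_add hR0]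
          norm_num

theorem VHP_proof (hI4 : I4_stmt) (hI5 : I5_stmt) (hI6 : I6_stmt) (hI7 : I7_stmt) (hCNTV : CNTV_stmt)
    (hPARV : PARV_stmt) : VHP_stmt := by
  intro Γ F κ ch hΓ hF hch
  obtain ⟨δ4, C4, hδ4, hC4, h4⟩ := hI4 Γ ch hΓ hch
  obtain ⟨δ5, C5, hδ5, hC5, h5⟩ := hI5 Γ hΓ
  obtain ⟨δ6, C6, hδ6, hC6, h6⟩ := hI6 Γ hΓ
  obtain ⟨δ7, C7, hδ7, hC7, h7⟩ := hI7 Γ F ch hΓ hF hch
  obtain ⟨δn, Cn, ρ10, hδn, hCn, hρ10, hρ10', hn⟩ := hCNTV Γ κ hΓ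
  refine ⟨min δ4 (min δ5 (min δ6 (min δ7 δn))), by positivity, ?_⟩
  have d4 : min δ4 (min δ5 (min δ6 (min δ7 δn))) ≤ δ4 := min_le_left _ _
  have d5 : min δ4 (min δ5 (min δ6 (min δ7 δn))) ≤ δ5 := (min_le_right _ _).trans (min_le_left _ _)
  have d6 : min δ4 (min δ5 (min δ6 (min δ7 δn))) ≤ δ6 :=
    ((min_le_right _ _).trans (min_le_right _ _)).trans (min_le_left _ _)
  have d7 : min δ4 (min δ5 (min δ6 (min δ7 δn))) ≤ δ7 :=
    (((min_le_right _ _).trans (min_le_right _ _)).trans (min_le_right _ _)).trans (min_le_left _ _)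
  have dn : min δ4 (min δ5 (min δ6 (min δ7 δn))) ≤ δn :=
    (((min_le_right _ _).trans (min_le_right _ _)).trans (min_le_right _ _)).trans (min_le_right _ _)
  generalize min δ4 (min δ5 (min δ6 (min δ7 δn))) = δ0 at d4 d5 d6 d7 dn
  intro h e hTF he
  obtain ⟨v0, C1, hv0, hC1, h7'⟩ := h7 h e hTF he
  refine ⟨v0, C1, hv0, hC1, ?_⟩
  intro C T0 E0 M0 B hC hT0 hE0 hM0
  obtain ⟨Cm, hCm⟩ : ∃ Cm, Cm = max C (max C4 (max C5 (max C6 C7))) := ⟨_, rfl⟩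
  have c0 : C ≤ Cm := hCm ▸ le_max_left _ _
  have c4 : C4 ≤ Cm := hCm ▸ (le_max_left _ _).trans (le_max_right _ _)
  have c5 : C5 ≤ Cm := hCm ▸ ((le_max_left _ _).trans (le_max_right _ _)).trans (le_max_right _ _)
  have c6 : C6 ≤ Cm := hCm ▸
    (((le_max_left _ _).trans (le_max_right _ _)).trans (le_max_right _ _)).trans (le_max_right _ _)
  have c7 : C7 ≤ Cm := hCm ▸
    (((le_max_right _ _).trans (le_max_right _ _)).trans (le_max_right _ _)).trans (le_max_right _ _)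
  clear hCm
  have hCm1 : 1 ≤ Cm := hC.trans c0
  have hCm0 : 0 < Cm := by linarith
  obtain ⟨e2, he2⟩ : ∃ e2 : ℝ, e2 = min (1 / 20) (1 / Cm ^ 4) := ⟨_, rfl⟩
  have e20 : 0 < e2 := by rw [he2]; positivity
  have e21 : e2 ≤ 1 / 20 := he2 ▸ min_le_left _ _
  have e22 : Cm ^ 4 * e2 ≤ 1 := by
    have h1 : e2 ≤ 1 / Cm ^ 4 := he2 ▸ min_le_right _ _
    rw [le_div_iff₀ (by positivity)] at h1
    linarith
  clear he2
  obtain ⟨θ, z0, hθ, hz0, h7a⟩ := h7' T0 E0 e2 hT0 hE0 e20 e21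
  obtain ⟨b, hb1, hb2, hb3⟩ : ∃ b : ℕ, 1 ≤ b ∧ 6 / 10 ≤ b * e2 ∧ b * e2 ≤ 7 / 10 := by
    refine ⟨⌈(6 / 10) / e2⌉₊, ?_, ?_, ?_⟩
    · have : 0 < ⌈(6 / 10) / e2⌉₊ := Nat.ceil_pos.2 (by positivity)
      exact this
    · have h1 := Nat.le_ceil ((6 / 10 : ℝ) / e2)
      rwa [div_le_iff₀ e20] at h1
    · have h1 : (⌈(6 / 10) / e2⌉₊ : ℝ) < (6 / 10) / e2 + 1 := Nat.ceil_lt_add_one (by positivity)
      have h2 : (⌈(6 / 10) / e2⌉₊ : ℝ) * e2 ≤ ((6 / 10) / e2 + 1) * e2 :=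
        mul_le_mul_of_nonneg_right h1.le e20.le
      have h3 : ((6 / 10 : ℝ) / e2 + 1) * e2 = 6 / 10 + e2 := by field_simp
      linarith
  obtain ⟨L, hL1, hL2⟩ : ∃ L : ℕ, 1 ≤ L ∧ M0 + 3 ≤ θ * L := by
    refine ⟨⌈(M0 + 3) / θ⌉₊ + 1, by omega, ?_⟩
    have h1 := Nat.le_ceil ((M0 + 3) / θ)
    rw [div_le_iff₀ hθ] at h1
    push_cast
    nlinarith
  obtain ⟨n, hn1, hn2⟩ : ∃ n : ℕ, 1 ≤ n ∧ (2 * (L : ℝ) + 1) / n ≤ e := by
    refine ⟨⌈(2 * (L : ℝ) + 1) / e⌉₊ + 1, by omega, ?_⟩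
    have h1 := Nat.le_ceil ((2 * (L : ℝ) + 1) / e)
    rw [div_le_iff₀ he] at h1
    rw [div_le_iff₀ (by positivity)]
    push_cast
    nlinarith
  have hN1 : 1 ≤ b * n * L := Nat.mul_pos (Nat.mul_pos hb1 hn1) hL1
  have hnst : ∀ l ∈ AdZ b L n, nst l ≤ b * n * L := fun l hl => VHP_nst b L n hb1 l hl
  generalize b * n * L = N at hN1 hnst
  obtain ⟨A, hA, a1, a2, az, az1, az2, a3, a4⟩ := VHP_prm Cm e2 z0 N hCm1 e20 e21 e22 hz0
  have hA0 : Adm C A := VHP_adm hA c0 az az1 az2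
  have hA4 : Adm C4 A := VHP_adm hA c4 az az1 az2
  have hA5 : Adm C5 A := VHP_adm hA c5 az az1 az2
  have hA6 : Adm C6 A := VHP_adm hA c6 az az1 az2
  have hA7 : Adm C7 A := VHP_adm hA c7 az az1 az2
  have hNr : (1 : ℝ) ≤ N := by exact_mod_cast hN1
  obtain ⟨a, R1, ha1, hR1, hpar⟩ := hPARV N (10 * N + M0 + 10) Cn ρ10 e2 hN1 (by linarith) hCn hρ10 e20
  obtain ⟨d, R4, hd, hR4, g4⟩ := h4 B A hA4
  have h5' : ∀ N' : ℕ, ∃ R5 : ℝ, 1 ≤ N' → ∀ (R : ℝ) (D : Dyn), R5 ≤ R → OKD Γ δ5 B D → ∀ p q : SL(2, ℝ) × ℝ,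
      mZ (mW R) (N' - 1) {v | Ch D A R N' (vz p q v)} ≤ ENNReal.ofReal ((R ^ (-2 + C5 * A.z2)) ^ (N' - 1)) := by
    intro N'
    by_cases hN' : 1 ≤ N'
    · obtain ⟨R5, _, h⟩ := h5 B A N' hA5 hN'
      exact ⟨R5, fun _ => h⟩
    · exact ⟨0, fun h => absurd h hN'⟩
  choose R5 g5 using h5'
  obtain ⟨R6, hR6, g6⟩ := h6 B A hA6
  obtain ⟨R7, hR7, g7⟩ := h7a B A hA7 a1 a2
  obtain ⟨R8, hR8, g8⟩ := VHP_num N A.m hN1
  refine ⟨θ, b, L, n, N, A, a, max R1 (max R4 (max (∑ i ∈ Finset.range (N + 1), |R5 i|) (max R6 (max R7 R8)))),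
    hθ, hb1, hL1, hn1, hN1, hn2, hL2, hA0, hnst, ha1, hR1.trans (le_max_left _ _), ?_⟩
  intro R ρ K C0 J p χ D hR hρ hρa hK hNet hD hU
  have r1 : R1 ≤ R := (le_max_left _ _).trans hR
  have r4 : R4 ≤ R := ((le_max_left _ _).trans (le_max_right _ _)).trans hR
  have r5 : ∑ i ∈ Finset.range (N + 1), |R5 i| ≤ R :=
    (((le_max_left _ _).trans (le_max_right _ _)).trans (le_max_right _ _)).trans hR
  have r6 : R6 ≤ R :=
    ((((le_max_left _ _).trans (le_max_right _ _)).trans (le_max_right _ _)).trans (le_max_right _ _)).trans hR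
  have r7 : R7 ≤ R := (((((le_max_left _ _).trans (le_max_right _ _)).trans (le_max_right _ _)).trans
    (le_max_right _ _)).trans (le_max_right _ _)).trans hR
  have r8 : R8 ≤ R := (((((le_max_right _ _).trans (le_max_right _ _)).trans (le_max_right _ _)).trans
    (le_max_right _ _)).trans (le_max_right _ _)).trans hR
  obtain ⟨q1, q2, q3, q4⟩ := g8 R r8
  have hR0 : 0 < R := by linarith
  have htu : A.tu R = e2 * Real.log R := by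
    show (A.m : ℝ) * (A.e3 * Real.log R) = _
    rw [← mul_assoc, a1]
  obtain ⟨k1, k2, k3, k4, k5⟩ := g4 R D r4 (VHP_okd hD d4)
  obtain ⟨nc, n1, n2, n3, n4, n5, n6⟩ := hpar R ρ (A.tu R) r1 hρ hρa (by rw [htu]) (by
    rw [htu]; nlinarith)
  have hRd : R ^ (-d) ≤ 1 := Real.rpow_le_one_of_one_le_of_nonpos q1 (by linarith)
  have hRd0 : 0 < R ^ (-d) := Real.rpow_pos_of_pos hR0 _
  have hpi : 0 < Real.pi := Real.pi_pos
  have hpi3 : 3 < Real.pi := Real.pi_gt_three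
  have hr5 : 0 < R ^ (-(1 / 5) : ℝ) := Real.rpow_pos_of_pos hR0 _
  have hJP : ∀ (N' : ℕ) (w : ℕ → SL(2, ℝ) × ℝ), Ch D A R N' w → JP D (A.tu R) (R ^ (-(1 / 5) : ℝ)) N' w := by
    intro N' w hw j hj
    obtain ⟨s1, s2, s3, -⟩ := g6 R D r6 (VHP_okd hD d6) _ _ (hw j hj)
    refine ⟨s1, ?_, ?_⟩
    · exact (abs_le.2 ⟨s2.1, s2.2⟩).trans q3
    · exact (abs_le.2 ⟨s3.1, s3.2⟩).trans q3
  refine ⟨Cm * A.z2, (1 + R ^ (-d)) * (R ^ 2 / (2 * Real.pi)), nc, ?_⟩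
  refine
    { ker := k1
      bd := k2
      rng := ?_
      rch := k4
      row := k5
      c0 := ⟨?_, ?_⟩
      jmp := ?_
      vol := ?_
      loss := ⟨by positivity, a4⟩
      ld := ?_
      cnt := ?_
      nc1 := n1 }
  · intro p q hpq
    refine (k3 p q hpq).trans ?_
    rw [htu]
    nlinarith
  · have h1 : 0 ≤ R ^ 2 / (2 * Real.pi) := by positivity
    nlinarith
  · have h1 : (1 + R ^ (-d)) * (R ^ 2 / (2 * Real.pi)) ≤ 2 * (R ^ 2 / (2 * Real.pi)) :=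
      mul_le_mul_of_nonneg_right (by linarith) (by positivity)
    refine h1.trans ?_
    rw [← mul_div_assoc, div_le_iff₀ (by positivity)]
    nlinarith [sq_nonneg R]
  · intro p q hpq
    obtain ⟨-, -, -, s4⟩ := g6 R D r6 (VHP_okd hD d6) p q hpq
    exact s4.trans (q4 A.z2 a3)
  · intro N' hN' hN'N p q
    have hR5 : R5 N' ≤ R := by
      refine (le_abs_self _).trans (le_trans ?_ r5)
      exact Finset.single_le_sum (f := fun i => |R5 i|) (fun i _ => abs_nonneg _)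
        (Finset.mem_range.2 (by omega))
    refine (g5 N' hN' R D hR5 (VHP_okd hD d5) p q).trans ?_
    apply ENNReal.ofReal_le_ofReal
    refine pow_le_pow_left₀ (Real.rpow_nonneg hR0.le _) ?_ _
    refine Real.rpow_le_rpow_of_exponent_le q1 ?_
    have := mul_le_mul_of_nonneg_right c5 az2
    linarith
  · intro p hp
    refine g7 R D b r7 (VHP_okd hD d7) hU ?_ ?_ p hp
    · rw [htu, ← mul_assoc]
      exact mul_le_mul_of_nonneg_right hb2 (by linarith)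
    · rw [htu, ← mul_assoc]
      exact mul_le_mul_of_nonneg_right hb3 (by linarith)
  · intro N' hN' hN'N x y w hw0 hw
    obtain ⟨m1, m2⟩ := n6 N' hN' hN'N
    have hlog : 0 < (Real.log R) ^ (-a) := Real.rpow_pos_of_pos (by linarith) _
    obtain ⟨f1, f2⟩ := hn B C0 ρ ((Real.log R) ^ (-a)) (R ^ (-(1 / 5) : ℝ)) K (A.tu R) J p χ N' nc D x y w
      (VHP_okd hD dn) hN' hρ hr5 n2 n3 n5 n4 hK m1 hNet hw0 (hJP N' w hw)
    have hsub : {γ : Γ | ∃ w' : ℕ → SL(2, ℝ) × ℝ, w' 0 = x ∧ w' N' = γ • y ∧ Ch D A R N' w' ∧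
        UndV D χ K (A.tu R) N' nc w w'} ⊆ {γ : Γ | ∃ w' : ℕ → SL(2, ℝ) × ℝ, w' 0 = x ∧ w' N' = γ • y ∧
        JP D (A.tu R) (R ^ (-(1 / 5) : ℝ)) N' w' ∧ UndV D χ K (A.tu R) N' nc w w'} := by
      rintro γ ⟨w', g1, g2, g3, g4⟩
      exact ⟨w', g1, g2, hJP N' w' g3, g4⟩
    refine ⟨f1.subset hsub, ?_⟩
    have h1 := Set.ncard_le_ncard hsub f1
    have h2 : (({γ : Γ | ∃ w' : ℕ → SL(2, ℝ) × ℝ, w' 0 = x ∧ w' N' = γ • y ∧ Ch D A R N' w' ∧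
        UndV D χ K (A.tu R) N' nc w w'}.ncard : ℕ) : ℝ) ≤ (({γ : Γ | ∃ w' : ℕ → SL(2, ℝ) × ℝ, w' 0 = x ∧
        w' N' = γ • y ∧ JP D (A.tu R) (R ^ (-(1 / 5) : ℝ)) N' w' ∧ UndV D χ K (A.tu R) N' nc w w'}.ncard : ℕ) : ℝ) := by
      exact_mod_cast h1
    exact h2.trans (f2.trans m2)

end

end Pool.Agent.VQ
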